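import Pool.Agent.Lib.MP_b5021c_nt.IfaceB

/-!
# MP_b5021c_nt, board b5, row A1R

A non-zero element of `O[z, 1/z]` which is bounded by one on the unit circle is a unit (Parseval).
-/

namespace Pool.Agent.B5.H91

open scoped LaurentPolynomial
open Polynomial

theorem evR_toLaurent {O : Type} [CommRing O] [Coef O] (z : Circle) (f : Polynomial O) :
    evR z (toLaurent f) = (f.map (Coef.emb : O →+* ℂ)).eval (z : ℂ) := by
  unfold evR
  rw [LaurentPolynomial.eval₂_toLaurent, Polynomial.eval_map]
  rfl

theorem norm_evR_T {O : Type} [CommRing O] [Coef O] (z : Circle) (n : ℤ) :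
    ‖evR z (LaurentPolynomial.T n : RO O)‖ = 1 := by
  unfold evR
  rw [LaurentPolynomial.eval₂_T]
  have h : (((Circle.toUnits z) ^ n : ℂˣ) : ℂ) = ((z ^ n : Circle) : ℂ) := by
    rw [← map_zpow]
    rfl
  rw [h]
  exact Circle.norm_coe _

theorem a1r : A1S := by
  intro O _ _ _ _ p hp hle
  obtain ⟨n, f, hf⟩ := LaurentPolynomial.exists_T_pow p
  have hf0 : f ≠ 0 := by
    rintro rfl
    rw [map_zero] at hf
    have h1 : (p * LaurentPolynomial.T n) * LaurentPolynomial.T (-n) = 0 := by rw [← hf, zero_mul]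
    rw [mul_assoc, ← LaurentPolynomial.T_add, add_neg_cancel, LaurentPolynomial.T_zero,
      mul_one] at h1
    exact hp h1
  set g : Polynomial ℂ := f.map (Coef.emb : O →+* ℂ) with hg
  have hcoef : ∀ i, g.coeff i = Coef.emb (f.coeff i) := fun i => by rw [hg, Polynomial.coeff_map]
  have hev : ∀ z : Circle, ‖g.eval (z : ℂ)‖ ≤ 1 := by
    intro z
    rw [hg, ← evR_toLaurent, hf, map_mul, norm_mul, norm_evR_T, mul_one]
    exact hle z
  have hsum : ∑ i ∈ g.support, ‖g.coeff i‖ ^ 2 ≤ 1 := by
    rw [Polynomial.sum_sq_norm_coeff_eq_circleAverage]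
    apply Real.circleAverage_mono_on_of_le_circle
    · apply ContinuousOn.circleIntegrable'
      apply Continuous.continuousOn
      exact (g.continuous.norm).pow 2
    · intro x hx
      rw [mem_sphere_zero_iff_norm, abs_one] at hx
      have h := hev ⟨x, mem_sphere_zero_iff_norm.mpr hx⟩
      have h2 : ‖g.eval x‖ ≤ 1 := h
      have h3 := norm_nonneg (g.eval x)
      change ‖g.eval x‖ ^ 2 ≤ 1
      nlinarith
  have hone : ∀ i ∈ g.support, (1 : ℝ) ≤ ‖g.coeff i‖ ^ 2 := by
    intro i hi
    have h1 : f.coeff i ≠ 0 := by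
      intro h
      rw [Polynomial.mem_support_iff, hcoef, h, map_zero] at hi
      exact hi rfl
    have h2 := Coef.one_le (f.coeff i) h1
    rw [hcoef]
    nlinarith
  -- the leading index
  set k := f.natDegree with hk
  have hck : f.coeff k ≠ 0 := by
    rw [hk]
    exact Polynomial.leadingCoeff_ne_zero.mpr hf0
  have hkg : k ∈ g.support := by
    rw [Polynomial.mem_support_iff, hcoef]
    intro h
    apply hck
    exact emb_inj (h.trans (map_zero _).symm)
  have hsplit := Finset.sum_erase_add g.support (fun i => ‖g.coeff i‖ ^ 2) hkg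
  have hnn : (0 : ℝ) ≤ ∑ i ∈ g.support.erase k, ‖g.coeff i‖ ^ 2 :=
    Finset.sum_nonneg fun i _ => by positivity
  have hk1 := hone k hkg
  have hzero : ∀ i, i ≠ k → f.coeff i = 0 := by
    intro i hik
    by_contra hne
    have hig : i ∈ g.support.erase k := by
      rw [Finset.mem_erase]
      refine ⟨hik, ?_⟩
      rw [Polynomial.mem_support_iff, hcoef]
      intro h
      exact hne (emb_inj (h.trans (map_zero _).symm))
    have h1 : ‖g.coeff i‖ ^ 2 ≤ ∑ i ∈ g.support.erase k, ‖g.coeff i‖ ^ 2 :=
      Finset.single_le_sum (f := fun i => ‖g.coeff i‖ ^ 2) (fun j _ => by positivity) hig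
    have h2 := hone i (Finset.mem_of_mem_erase hig)
    linarith
  have hknorm : ‖g.coeff k‖ ^ 2 = 1 := by linarith
  have hfm : f = Polynomial.monomial k (f.coeff k) := by
    ext i
    rw [Polynomial.coeff_monomial]
    split_ifs with h
    · rw [h]
    · exact hzero i (fun h' => h h'.symm)
  have hcu : IsUnit (f.coeff k) := by
    apply IsUnit.of_mul_eq_one (Coef.conj (f.coeff k))
    apply emb_inj
    rw [map_mul, Coef.emb_conj, Complex.mul_conj, Complex.normSq_eq_norm_sq, ← hcoef, hknorm,
      map_one, Complex.ofReal_one]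
  have hTu : IsUnit (p * LaurentPolynomial.T (n : ℤ)) := by
    rw [← hf, hfm, Polynomial.toLaurent_C_mul_T]
    exact (hcu.map LaurentPolynomial.C).mul (LaurentPolynomial.isUnit_T _)
  exact isUnit_of_mul_isUnit_left hTu

end Pool.Agent.B5.H91
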