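import Pool.Agent.Lib.MP_b5021c_nt.IfaceS1

/-!
# Board b5, row S_LS1: a simple closed element has at most one small non-pure factor
-/

namespace Pool.Agent.B5.H91

theorem ls1_prod (hM : MmulS) (O : Type) [CommRing O] [IsDomain O] [IsPrincipalIdealRing O]
    [Coef O] {ι : Type} (s : Finset ι) (g : ι → RO O) (hg : ∀ i ∈ s, g i ≠ 0) :
    M (∏ i ∈ s, g i) = ∏ i ∈ s, M (g i) := by
  classical
  induction s using Finset.induction_on with
  | empty =>
    rw [Finset.prod_empty, Finset.prod_empty]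
    exact (hM O).2.2 1 isUnit_one
  | insert a s ha ih =>
    have h1 : ∏ i ∈ s, g i ≠ 0 :=
      Finset.prod_ne_zero_iff.2 fun i hi => hg i (Finset.mem_insert_of_mem hi)
    rw [Finset.prod_insert ha, Finset.prod_insert ha,
      (hM O).1 _ _ (hg a (Finset.mem_insert_self a s)) h1,
      ih fun i hi => hg i (Finset.mem_insert_of_mem hi)]

theorem ls1 (hL : LsmS) (hM : MmulS) : Ls1S := by
  intro O _ _ _ _ P L _ _ _ _ _ phi D S i0 eta h c n G fd hs
  obtain ⟨_, hc, h2⟩ := hs
  have h1 := hL O P L phi D S i0 eta h c n G fd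
  have hG : ∀ i, (G i).coeff 0 ≠ 0 := fun i => (fd.st i).1
  have hP : ∏ i, (G i).coeff 0 ≠ 0 := Finset.prod_ne_zero_iff.2 fun i _ => hG i
  have hV : M (D.coeff 0 + (eta : RO O) * D.coeff S) = ∏ i ∈ big G, M ((G i).coeff 0) := by
    rw [fd.v00, (hM O).1 _ _ fd.c0 hP, hc, one_mul, ls1_prod hM O Finset.univ _ fun i _ => hG i]
    symm
    apply Finset.prod_subset (Finset.subset_univ _)
    intro i _ hi
    have h3 : ¬ 1 < M ((G i).coeff 0) := fun h4 => hi (by
      unfold big
      exact Finset.mem_filter.2 ⟨Finset.mem_univ i, h4⟩)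
    exact le_antisymm (not_lt.1 h3) ((hM O).2.1 _)
  rw [← hV] at h1
  have hV1 := (hM O).2.1 (D.coeff 0 + (eta : RO O) * D.coeff S)
  by_contra hcard
  have hcard2 : (2 : ℝ) ≤ ((snp phi S i0 G).card : ℝ) := by
    have : 2 ≤ (snp phi S i0 G).card := by omega
    exact_mod_cast this
  set v := M (D.coeff 0 + (eta : RO O) * D.coeff S)
  set k := ((snp phi S i0 G).card : ℝ)
  have h5 : 2 * (v * v) ≤ k * (v * v) :=
    mul_le_mul_of_nonneg_right hcard2 (mul_self_nonneg v)
  nlinarith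

end Pool.Agent.B5.H91
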